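import Pool.Agent.H83.Ss4

set_option autoImplicit false

namespace Pool.Agent.Results.MP_70b496_lc.Lower

open Cardinal Pool.Agent.H83.SsDefs

theorem result : min dom covE ≤ ssC :=
  H83.Ss3.min_le_ssC

end Pool.Agent.Results.MP_70b496_lc.Lower
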