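import Pool.Agent.H83.Ss4

set_option autoImplicit false

namespace Pool.Agent.Results.MP_70b496_lc.Upper

open Cardinal Pool.Agent.H83.SsDefs

theorem result :
    ∀ h : ℕ → ℕ, (∀ i, 1 ≤ h i) → ∃ b : ℕ → ℕ, (∀ i, 1 ≤ b i) ∧ ssC ≤ dLc b h :=
  H83.Ss4.ssC_le_dLc

end Pool.Agent.Results.MP_70b496_lc.Upper
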